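import Pool.Agent.H47.BL.Fin
import Pool.Agent.H47.BL.Asm2
import Pool.Agent.H47.BL.T.REALIZE

/-!
# Boyd's conjecture for Coxeter and Alexander polynomials near nonnegative bilinear forms

For a square matrix `V` let `F_V = det (X V + Vᵀ)` (for triangular `V` with diagonal `1` the Coxeter
polynomial of `V + Vᵀ`; for a Seifert matrix the Alexander polynomial at `-X`).

(1) Let `N_F(t)` be the number of nonzero zeros of `F` with argument in `(-π, t)`. If
`|N_F - N_G| ≤ Δ` then the mean of `log max (|F|, |G|)` over the unit circle is at most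
`5 log M(F) + 5 log M(G) + 12 (Δ + 1)` (library).

(2) If `rank (V - W) ≤ r` and `V + Vᵀ` has at most `k` negative eigenvalues then the zeros of `F_V` and
`F_W` satisfy `|N(t) - N'(t)| ≤ 8 (r + k)`, for all sizes. Proof: the number of zeros of `F_V` in the sector
of the angles `(α, β)`, `0 < α < β < 2π`, is at least `ν(β) - ν(α)`, where `ν(θ)` is the number of negative
eigenvalues of the hermitian matrix `exp (iθ/2) V + exp (-iθ/2) Vᵀ`, and a local study at `θ = 0`
(where this matrix is `V + Vᵀ`, real and maybe singular) together with `ν(2π - θ) = n - ν(θ)` shows that it is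
at most `ν(β) - ν(α) + 2 k`. The functions `ν` of `V` and `W` differ by at most `2 r`.

(3) If `W + Wᵀ` is positive semidefinite and `det W ≠ 0` then all zeros of `F_W` lie on the unit circle,
`M(F_W) = |det W|`, and the discrepancy is at most `24 r`, without further conditions on `V`.

(4) So the measures of all `F_V` at bounded rank distance from a matrix `W` with `W + Wᵀ ≥ 0` and
bounded determinant have bounded companions, and Boyd's conjecture holds for them.

(5) If `f` is self-reciprocal of degree `2 g` then `(X + 1) f = F_V` for an integer matrix `V` of size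
`2 g + 1` (explicitly constructed), so that the classes of (4) exhaust the measures of all self-reciprocal
polynomials when the bound `κ` grows.
-/

set_option autoImplicit false

namespace Pool.Agent.Results.MP_6d22ea_nt.BilinearForms

open Polynomial Matrix

noncomputable section

/-- Value of an integer polynomial in `k` variables at the torus point
`(exp (2 π i t_1), …, exp (2 π i t_k))`. -/
def value {k : ℕ} (F : MvPolynomial (Fin k) ℤ) (t : Fin k → ℝ) : ℂ :=
  MvPolynomial.eval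
    (fun j : Fin k => Complex.exp (2 * (Real.pi : ℂ) * Complex.I * ((t j : ℝ) : ℂ)))
    (MvPolynomial.map (Int.castRingHom ℂ) F)

/-- The Mahler measure of an integer polynomial in `k` variables. -/
def mahler {k : ℕ} (F : MvPolynomial (Fin k) ℤ) : ℝ :=
  Real.exp (∫ t in Set.Icc (0 : Fin k → ℝ) 1, Real.log ‖value F t‖)

/-- The integral of `log max(|F|, |G|)` over the torus. -/
def pairHeight {k : ℕ} (F G : MvPolynomial (Fin k) ℤ) : ℝ :=
  ∫ t in Set.Icc (0 : Fin k → ℝ) 1, Real.log (max ‖value F t‖ ‖value G t‖)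

/-- The set of the Mahler measures of the nonzero integer polynomials in any number of variables. -/
def allMeasures : Set ℝ :=
  {x : ℝ | ∃ k : ℕ, 1 ≤ k ∧ ∃ F : MvPolynomial (Fin k) ℤ, F ≠ 0 ∧ x = mahler F}

/-- The Mahler measures of the nonzero polynomials `F` having a coprime companion `G ≠ 0` with
`∫ log max(|F|, |G|) ≤ K`. -/
def L (K : ℝ) : Set ℝ :=
  {x : ℝ | ∃ k : ℕ, 1 ≤ k ∧ ∃ F G : MvPolynomial (Fin k) ℤ, F ≠ 0 ∧ G ≠ 0 ∧ IsRelPrime F G ∧
    pairHeight F G ≤ K ∧ x = mahler F}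

/-- For every `B` some `L K` contains all elements of `T` below `B`. -/
def BoundedCompanions (T : Set ℝ) : Prop := ∀ B : ℝ, ∃ K : ℝ, T ∩ Set.Iio B ⊆ L K

/-- The Mahler measure of an integer polynomial in one variable (Mathlib). -/
def measure (P : ℤ[X]) : ℝ := (P.map (Int.castRingHom ℂ)).mahlerMeasure

/-- The number of the nonzero complex zeros of `F`, with multiplicity, with argument in `(-π, π]` smaller
than `t`. -/
def zerosBelow (F : ℤ[X]) (t : ℝ) : ℕ :=
  ((F.map (Int.castRingHom ℂ)).roots.filter fun w => w ≠ 0 ∧ w.arg < t).card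

/-- The polynomial `det (X V + Vᵀ)`. -/
def form {R : Type} [CommRing R] {n : ℕ} (V : Matrix (Fin n) (Fin n) R) : R[X] :=
  (Matrix.of fun i j => C (V i j) * X + C (V j i)).det

/-- The integer polynomial `F` is a real multiple `a det (X V + Vᵀ)`, `a ≠ 0`. -/
def IsForm {n : ℕ} (V : Matrix (Fin n) (Fin n) ℝ) (F : ℤ[X]) : Prop :=
  ∃ a : ℝ, a ≠ 0 ∧ F.map (Int.castRingHom ℝ) = C a * form V

/-- `V + Vᵀ` has at most `k` negative eigenvalues: it becomes positive semidefinite when the squares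
of `k` linear forms are added. -/
def IndexAtMost {n : ℕ} (k : ℕ) (V : Matrix (Fin n) (Fin n) ℝ) : Prop :=
  ∃ U : Matrix (Fin k) (Fin n) ℝ, ∀ x : Fin n → ℝ,
    0 ≤ x ⬝ᵥ (V + Vᵀ) *ᵥ x + (U *ᵥ x) ⬝ᵥ (U *ᵥ x)

/-- `V + Vᵀ` is positive semidefinite. -/
def Nonneg {n : ℕ} (V : Matrix (Fin n) (Fin n) ℝ) : Prop :=
  ∀ x : Fin n → ℝ, 0 ≤ x ⬝ᵥ (V + Vᵀ) *ᵥ x

/-- The measures `x = M(F)` of the integer polynomials `F` the zeros of which are shadowed by those of
an integer polynomial `G` with `M(G) ≤ κ x`: `|N_F - N_G| ≤ κ x`. Here the common divisors of `F` and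
`G` have measure one or all zeros of `G` lie on the unit circle. -/
def shadowed (κ : ℝ → ℝ) : Set ℝ :=
  {x : ℝ | ∃ F G : ℤ[X], F ≠ 0 ∧ G ≠ 0 ∧ measure G ≤ κ x ∧
    (∀ t : ℝ, |(zerosBelow F t : ℝ) - zerosBelow G t| ≤ κ x) ∧
    ((∀ D : ℤ[X], D ∣ F → D ∣ G → measure D = 1) ∨
      ∀ w ∈ (G.map (Int.castRingHom ℂ)).roots, ‖w‖ = 1) ∧ x = measure F}

/-- The measures `x = M(F)` of the integer polynomials `F = a det (X V + Vᵀ)` for which there is
`G = b det (X W + Wᵀ)` with `rank (V - W) ≤ κ x`, `W + Wᵀ ≥ 0`, `det W ≠ 0` and leading coefficient at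
most `κ x` (for integer matrices `a = b = 1`, and it is `det W`). -/
def nearNonneg (κ : ℝ → ℝ) : Set ℝ :=
  {x : ℝ | ∃ (n : ℕ) (V W : Matrix (Fin n) (Fin n) ℝ) (F G : ℤ[X]), F ≠ 0 ∧ G ≠ 0 ∧
    IsForm V F ∧ IsForm W G ∧ ((V - W).rank : ℝ) ≤ κ x ∧ Nonneg W ∧ W.det ≠ 0 ∧
    |(G.leadingCoeff : ℝ)| ≤ κ x ∧ x = measure F}

theorem zerosBelow_eq (F : ℤ[X]) (t : ℝ) :
    zerosBelow F t = Pool.Agent.H47.BL.zb (Pool.Agent.H261R2.CM.toC F) t := by
  unfold zerosBelow Pool.Agent.H47.BL.zb Pool.Agent.H261R2.CM.toC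
  congr

theorem form_map {n : ℕ} (V : Matrix (Fin n) (Fin n) ℝ) :
    (form V).map Complex.ofRealHom = Pool.Agent.H47.BL.pol V := by
  unfold form Pool.Agent.H47.BL.pol
  rw [← Polynomial.coe_mapRingHom, RingHom.map_det]
  congr 1
  ext1 i j
  simp

theorem isF {n : ℕ} {V : Matrix (Fin n) (Fin n) ℝ} {F : ℤ[X]} (h : IsForm V F) :
    Pool.Agent.H47.BL.Asm.IsF V F := by
  obtain ⟨a, ha, h⟩ := h
  refine ⟨a, ha, ?_⟩
  have h1 := congrArg (Polynomial.map Complex.ofRealHom) h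
  rw [Polynomial.map_map, Polynomial.map_mul, form_map, Polynomial.map_C] at h1
  rw [← show (a : ℂ) = Complex.ofRealHom a from rfl] at h1
  rw [← h1]
  rfl

theorem form_int {n : ℕ} (V : Matrix (Fin n) (Fin n) ℤ) :
    (form V).map (Int.castRingHom ℝ) = form (V.map (Int.cast : ℤ → ℝ)) := by
  unfold form
  rw [← Polynomial.coe_mapRingHom, RingHom.map_det]
  congr 1
  ext1 i j
  simp

theorem isForm_int {n : ℕ} (V : Matrix (Fin n) (Fin n) ℤ) :
    IsForm (V.map (Int.cast : ℤ → ℝ)) (form V) :=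
  ⟨1, one_ne_zero, by rw [C_1, one_mul, form_int]⟩

theorem realize {g : ℕ} {f : ℤ[X]} (hf : f ≠ 0) (hd : f.natDegree ≤ 2 * g)
    (hs : ∀ j ≤ 2 * g, f.coeff j = f.coeff (2 * g - j)) (κ : ℝ → ℝ) :
    ∃ V : Matrix (Fin (2 * g + 1)) (Fin (2 * g + 1)) ℤ, form V = (X + 1) * f ∧
      measure (form V) = measure f ∧
      (((2 * g + 1 : ℕ) : ℝ) ≤ κ (measure f) → measure f ∈ nearNonneg κ) := by
  obtain ⟨V, hV, hM⟩ := Pool.Agent.H47.BL.Asm2.realize Pool.Agent.H47.BL.REALIZE.main g f hd hs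
  have hV' : form V = (X + 1) * f := hV
  have hM' : measure (form V) = measure f := hM
  refine ⟨V, hV', hM', fun hκ => ?_⟩
  have hF : form V ≠ 0 := by
    rw [hV']
    exact mul_ne_zero (monic_X_add_C (1 : ℤ)).ne_zero hf
  have h1 : form (1 : Matrix (Fin (2 * g + 1)) (Fin (2 * g + 1)) ℤ) = (X + 1) ^ (2 * g + 1) :=
    Pool.Agent.H47.BL.Asm2.form_one _
  have hW : IsForm (1 : Matrix (Fin (2 * g + 1)) (Fin (2 * g + 1)) ℝ)
      ((X + 1 : ℤ[X]) ^ (2 * g + 1)) := by
    have h2 := isForm_int (1 : Matrix (Fin (2 * g + 1)) (Fin (2 * g + 1)) ℤ)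
    rw [h1] at h2
    rwa [Matrix.map_one _ Int.cast_zero Int.cast_one] at h2
  have hlc : |((((X + 1 : ℤ[X]) ^ (2 * g + 1)).leadingCoeff : ℤ) : ℝ)| = 1 := by
    rw [Pool.Agent.H47.BL.Asm2.lc_form_one]
    simp
  refine ⟨2 * g + 1, V.map (Int.cast : ℤ → ℝ), 1, form V, (X + 1) ^ (2 * g + 1), hF,
    pow_ne_zero _ (monic_X_add_C (1 : ℤ)).ne_zero, isForm_int V, hW, ?_, ?_, ?_, ?_, hM'.symm⟩
  · refine le_trans ?_ hκ
    have := Matrix.rank_le_width (V.map (Int.cast : ℤ → ℝ) - 1)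
    exact_mod_cast this
  · intro x
    have : (1 + (1 : Matrix (Fin (2 * g + 1)) (Fin (2 * g + 1)) ℝ)ᵀ) = (2 : ℝ) • 1 := by
      rw [Matrix.transpose_one, two_smul]
    rw [this, Matrix.smul_mulVec, Matrix.one_mulVec, dotProduct_smul]
    have h0 : 0 ≤ x ⬝ᵥ x := Finset.sum_nonneg fun i _ => mul_self_nonneg _
    positivity
  · rw [Matrix.det_one]
    exact one_ne_zero
  · rw [hlc]
    refine le_trans ?_ hκ
    push_cast
    have : (0 : ℝ) ≤ g := Nat.cast_nonneg _
    linarith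

theorem result (κ : ℝ → ℝ) (hκ : Monotone κ) :
    -- (1) the discrepancy of the zeros for two matrices
    (∀ (n r k : ℕ) (V W : Matrix (Fin n) (Fin n) ℝ) (F G : ℤ[X]), F ≠ 0 → G ≠ 0 → IsForm V F →
      IsForm W G → (V - W).rank ≤ r → IndexAtMost k V →
      ∀ t : ℝ, |(zerosBelow F t : ℝ) - zerosBelow G t| ≤ 8 * (r + k)) ∧
    -- (2) nonnegative `W`
    (∀ (n r : ℕ) (V W : Matrix (Fin n) (Fin n) ℝ) (F G : ℤ[X]), F ≠ 0 → G ≠ 0 → IsForm V F →
      IsForm W G → (V - W).rank ≤ r → Nonneg W → W.det ≠ 0 →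
      (∀ w ∈ (G.map (Int.castRingHom ℂ)).roots, ‖w‖ = 1) ∧ measure G = |(G.leadingCoeff : ℝ)| ∧
      (∀ t : ℝ, |(zerosBelow F t : ℝ) - zerosBelow G t| ≤ 24 * r) ∧
      measure F ∈ L (6 * Real.log (measure F) + 5 * Real.log |(G.leadingCoeff : ℝ)| +
        (288 * r + 12))) ∧
    -- (3) integer matrices
    (∀ (n r : ℕ) (V W : Matrix (Fin n) (Fin n) ℤ), form V ≠ 0 →
      ((V - W).map (Int.cast : ℤ → ℝ)).rank ≤ r → Nonneg (W.map (Int.cast : ℤ → ℝ)) → W.det ≠ 0 →
      measure (form V) ∈ L (6 * Real.log (measure (form V)) + 5 * Real.log |(W.det : ℝ)| +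
        (288 * r + 12))) ∧
    -- (4) bounded companions
    BoundedCompanions (shadowed κ ∪ nearNonneg κ) ∧
    -- (5) Boyd's conjecture
    (∀ T : Set ℝ, BoundedCompanions T → ∃ M : Submonoid ℝ,
      M = Submonoid.closure (T ∪ (shadowed κ ∪ nearNonneg κ)) ∧
      BoundedCompanions (M : Set ℝ) ∧ closure (M : Set ℝ) ⊆ allMeasures ∧
      (∃ δ : ℝ, 1 < δ ∧ ∀ x ∈ M, x = 1 ∨ δ ≤ x) ∧
      ∀ B : ℝ, ∃ s : ℕ, ∀ x ∈ derivedSet^[s] (M : Set ℝ), B ≤ x) ∧
    -- (6) all self-reciprocal polynomials of even degree `2 g`, for the bounds `κ ≥ 2 g + 1`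
    ∀ (g : ℕ) (f : ℤ[X]), f ≠ 0 → f.natDegree ≤ 2 * g →
      (∀ j ≤ 2 * g, f.coeff j = f.coeff (2 * g - j)) →
      ∃ V : Matrix (Fin (2 * g + 1)) (Fin (2 * g + 1)) ℤ, form V = (X + 1) * f ∧
        measure (form V) = measure f ∧
        (((2 * g + 1 : ℕ) : ℝ) ≤ κ (measure f) → measure f ∈ nearNonneg κ) := by
  have hD := Pool.Agent.H47.BL.Fin.disc
  have hP := Pool.Agent.H47.BL.Fin.psd
  have hdisc : ∀ (n r k : ℕ) (V W : Matrix (Fin n) (Fin n) ℝ) (F G : ℤ[X]), F ≠ 0 → G ≠ 0 →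
      IsForm V F → IsForm W G → (V - W).rank ≤ r → IndexAtMost k V →
      ∀ t : ℝ, |(zerosBelow F t : ℝ) - zerosBelow G t| ≤ 8 * (r + k) := by
    intro n r k V W F G hF hG hV hW hr hk t
    rw [zerosBelow_eq, zerosBelow_eq]
    exact Pool.Agent.H47.BL.Asm.disc hD hF hG (isF hV) (isF hW) hr hk t
  have hnn : ∀ (n r : ℕ) (V W : Matrix (Fin n) (Fin n) ℝ) (F G : ℤ[X]), F ≠ 0 → G ≠ 0 →
      IsForm V F → IsForm W G → (V - W).rank ≤ r → Nonneg W → W.det ≠ 0 →
      (∀ w ∈ (G.map (Int.castRingHom ℂ)).roots, ‖w‖ = 1) ∧ measure G = |(G.leadingCoeff : ℝ)| ∧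
      (∀ t : ℝ, |(zerosBelow F t : ℝ) - zerosBelow G t| ≤ 24 * r) ∧
      measure F ∈ L (6 * Real.log (measure F) + 5 * Real.log |(G.leadingCoeff : ℝ)| +
        (288 * r + 12)) := by
    intro n r V W F G hF hG hV hW hr hW0 hdet
    obtain ⟨h1, h2⟩ := Pool.Agent.H47.BL.Asm.main2 hD hP hF hG (isF hV) (isF hW) hr hW0 hdet
    refine ⟨Pool.Agent.H47.BL.Asm.circle hP (isF hW) hW0 hdet, h1, fun t => ?_, h2⟩
    rw [zerosBelow_eq, zerosBelow_eq]
    exact Pool.Agent.H47.BL.Asm.disc2 hD hF hG (isF hV) (isF hW) hr hW0 t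
  have hone : ∀ F : ℤ[X], F ≠ 0 → 1 ≤ measure F := fun F hF =>
    Pool.Agent.H47.BL.Asm.one_le hF
  have hsh : Pool.Agent.TH845.KN.BC (shadowed κ) := by
    intro B
    refine ⟨6 * Real.log (max 1 B) + 5 * Real.log (max 1 (κ B)) + 12 * (κ B + 1), ?_⟩
    rintro x ⟨⟨F, G, hF, hG, hM, hΔ, hor, hx⟩, hxB⟩
    have hxB' : x < B := hxB
    have hκx : κ x ≤ κ B := hκ hxB'.le
    have h1 : 1 ≤ measure F := hone F hF
    have h2 : 1 ≤ measure G := hone G hG
    have hl1 : Real.log (measure F) ≤ Real.log (max 1 B) :=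
      Real.log_le_log (by linarith) (le_max_of_le_right (by rw [← hx]; exact hxB'.le))
    have hl2 : Real.log (measure G) ≤ Real.log (max 1 (κ B)) :=
      Real.log_le_log (by linarith) (le_max_of_le_right (hM.trans hκx))
    have hl0 : 0 ≤ Real.log (measure F) := Real.log_nonneg h1
    have hΔ' : ∀ t, |(Pool.Agent.H47.BL.zb (Pool.Agent.H261R2.CM.toC F) t : ℝ) -
        Pool.Agent.H47.BL.zb (Pool.Agent.H261R2.CM.toC G) t| ≤ κ B := by
      intro t
      rw [← zerosBelow_eq, ← zerosBelow_eq]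
      exact (hΔ t).trans hκx
    rw [hx]
    rcases hor with hor | hor
    · refine Pool.Agent.H261R2.CM.LL_mono ?_
        (Pool.Agent.H47.BL.Asm.mem1 F G hF hG hor (κ B) hΔ')
      change 5 * Real.log (measure F) + 5 * Real.log (measure G) + 12 * (κ B + 1) ≤ _
      linarith
    · refine Pool.Agent.H261R2.CM.LL_mono ?_
        (Pool.Agent.H47.BL.Asm.mem2 F G hF hG hor (κ B) hΔ')
      change 6 * Real.log (measure F) + 5 * Real.log (measure G) + 12 * (κ B + 1) ≤ _
      linarith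
  have hne : Pool.Agent.TH845.KN.BC (nearNonneg κ) := by
    intro B
    refine ⟨6 * Real.log (max 1 B) + 5 * Real.log (max 1 (κ B)) + (288 * κ B + 12), ?_⟩
    rintro x ⟨⟨n, V, W, F, G, hF, hG, hV, hW, hr, hW0, hdet, hM, hx⟩, hxB⟩
    have hxB' : x < B := hxB
    have hκx : κ x ≤ κ B := hκ hxB'.le
    obtain ⟨-, h4, -, h5⟩ := hnn n (V - W).rank V W F G hF hG hV hW le_rfl hW0 hdet
    have h1 : 1 ≤ measure F := hone F hF
    have h2 : 1 ≤ measure G := hone G hG
    have hl1 : Real.log (measure F) ≤ Real.log (max 1 B) :=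
      Real.log_le_log (by linarith) (le_max_of_le_right (by rw [← hx]; exact hxB'.le))
    have hl2 : Real.log |(G.leadingCoeff : ℝ)| ≤ Real.log (max 1 (κ B)) :=
      Real.log_le_log (by rw [← h4]; linarith) (le_max_of_le_right (hM.trans hκx))
    rw [hx]
    refine Pool.Agent.H261R2.CM.LL_mono ?_ h5
    linarith
  have hB := Pool.Agent.TH845.KN.BC.union hsh hne
  refine ⟨hdisc, hnn, ?_, hB, ?_, fun g f hf hd hs => realize hf hd hs κ⟩
  · intro n r V W hV hr hW0 hdet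
    have e1 : (V - W).map (Int.cast : ℤ → ℝ) = V.map (Int.cast : ℤ → ℝ) - W.map (Int.cast : ℤ → ℝ) := by
      ext i j
      simp
    rw [e1] at hr
    have e2 : (W.map (Int.cast : ℤ → ℝ)).det = (W.det : ℝ) := by
      have := (Int.castRingHom ℝ).map_det W
      simpa [RingHom.mapMatrix_apply] using this.symm
    have hdet' : (W.map (Int.cast : ℤ → ℝ)).det ≠ 0 := by
      rw [e2]
      exact_mod_cast hdet
    obtain ⟨hW1, -, hW3⟩ := hP n _ hW0 hdet'
    have hG : form W ≠ 0 := by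
      intro h0
      apply hW1
      rw [← form_map, ← form_int, h0, Polynomial.map_zero, Polynomial.map_zero]
    obtain ⟨-, h4, -, h5⟩ := hnn n r _ _ (form V) (form W) hV hG (isForm_int V) (isForm_int W) hr hW0 hdet'
    have e3 : measure (form W) = |(W.det : ℝ)| := by
      rw [← e2, ← hW3, ← form_map, ← form_int, Polynomial.map_map]
      rfl
    rw [← h4, e3] at h5
    exact h5
  · intro T hT
    have h1 : Pool.Agent.TH845.KN.BC
        ((Submonoid.closure (T ∪ (shadowed κ ∪ nearNonneg κ)) : Submonoid ℝ) : Set ℝ) :=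
      Pool.Agent.TH845.KN.BC_monoid (Pool.Agent.TH845.KN.BC.union hT hB)
    obtain ⟨h2, h3⟩ := Pool.Agent.W242.IM.closure_of_LL _ h1
    exact ⟨_, rfl, h1, h2, Pool.Agent.TH845.KN.gap_BC h1, h3⟩

end

end Pool.Agent.Results.MP_6d22ea_nt.BilinearForms
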