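import Pool.Agent.H2.BD.Det
import Pool.Agent.H2.BD.Iff
import Pool.Agent.H2.L.R_seed8.W242.IM.Final2

/-!
# Boyd's problem: lifts of bounded degree and bounded Mahler measure

Let `D` be an integer polynomial in any number of variables and let `Y` be a set of its variables, also
of any size. We set the variables of `Y` equal to one (by a change of variables, equal to arbitrary
monomials) and call `D` a lift of the polynomial obtained. The degree of `D` in the variables of `Y` and
the Mahler measure of `D` are bounded, the number of the variables is not.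

* If `P` is irreducible, contains a variable of `Y`, has degree at most `m` in each variable of `Y` and
  Mahler measure at most `B`, then `P` is a bounded companion of its specialisation: the integral of
  `log max(|P (z, 1)|, |P (z, y)|)` is at most `log M(P) + K (m, B)`.
* So the set of the Mahler measures of the polynomials which have lifts with degrees and measure bounded
  in terms of the measure of the polynomial has bounded companions. Conversely every set with
  bounded companions is obtained, with one variable in `Y` and degree one.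
* In particular the union of the sets `{M(D_A)}` of the monomial specialisations over infinitely many
  polynomials `D`: all those with degree at most `κ x` in every variable, `M(D) ≤ κ x`, `x = M(D_A)`.
* In particular the Mahler measures of determinants of bounded permanental growth.
-/

set_option autoImplicit false

namespace Pool.Agent.Results.MP_6d22ea_nt.BoundedDegreeLifts

open MeasureTheory

noncomputable section

/-- Value of an integer polynomial in `k` variables at the torus point
`(exp (2 π i t_1), …, exp (2 π i t_k))`. -/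
def value {k : ℕ} (F : MvPolynomial (Fin k) ℤ) (t : Fin k → ℝ) : ℂ :=
  MvPolynomial.eval (fun j : Fin k => Complex.exp (2 * (Real.pi : ℂ) * Complex.I * ((t j : ℝ) : ℂ)))
    (MvPolynomial.map (Int.castRingHom ℂ) F)

/-- The Mahler measure of an integer polynomial in `k` variables. -/
def mahler {k : ℕ} (F : MvPolynomial (Fin k) ℤ) : ℝ :=
  Real.exp (∫ t in Set.Icc (0 : Fin k → ℝ) 1, Real.log ‖value F t‖)

/-- The set of the Mahler measures of the nonzero integer polynomials in any number of variables. -/
def allMeasures : Set ℝ :=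
  {x : ℝ | ∃ k : ℕ, 1 ≤ k ∧ ∃ F : MvPolynomial (Fin k) ℤ, F ≠ 0 ∧ x = mahler F}

/-- The integral of `log max(|F|, |G|)` over the torus. -/
def pairHeight {k : ℕ} (F G : MvPolynomial (Fin k) ℤ) : ℝ :=
  ∫ t in Set.Icc (0 : Fin k → ℝ) 1, Real.log (max ‖value F t‖ ‖value G t‖)

/-- The Mahler measures of the nonzero polynomials `F` having a coprime companion `G ≠ 0` with
`∫ log max(|F|, |G|) ≤ K`. -/
def L (K : ℝ) : Set ℝ :=
  {x : ℝ | ∃ k : ℕ, 1 ≤ k ∧ ∃ F G : MvPolynomial (Fin k) ℤ, F ≠ 0 ∧ G ≠ 0 ∧ IsRelPrime F G ∧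
    pairHeight F G ≤ K ∧ x = mahler F}

/-- For every `B` some `L K` contains all elements of `T` below `B`. -/
def BoundedCompanions (T : Set ℝ) : Prop := ∀ B : ℝ, ∃ K : ℝ, T ∩ Set.Iio B ⊆ L K

/-- The specialisation of `D` at one in the variables of `Y`. -/
def atOne {n : ℕ} (Y : Finset (Fin n)) (D : MvPolynomial (Fin n) ℤ) : MvPolynomial (Fin n) ℤ :=
  MvPolynomial.aeval (fun i => if i ∈ Y then (1 : MvPolynomial (Fin n) ℤ) else MvPolynomial.X i) D

/-- Every divisor of `D` which does not contain the variables of `Y` has an integral Mahler measure.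
(For example its coefficients as a polynomial in the variables of `Y` are coprime up to integers,
monomials and polynomials of Mahler measure one.) -/
def IsEssentiallyPrimitive {n : ℕ} (Y : Finset (Fin n)) (D : MvPolynomial (Fin n) ℤ) : Prop :=
  ∀ Q, Q ∣ D → (∀ i ∈ Y, Q.degreeOf i = 0) → ∃ a : ℕ, mahler Q = a

/-- The Mahler measures `x` of the polynomials having a lift `D`, essentially primitive with respect to
the variables `Y` which are set to one, of degree at most `κ x` in each of these variables and of Mahler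
measure at most `κ x`. -/
def liftMeasures (κ : ℝ → ℕ) : Set ℝ :=
  {x : ℝ | ∃ n : ℕ, 1 ≤ n ∧ ∃ (D : MvPolynomial (Fin n) ℤ) (Y : Finset (Fin n)),
    (∀ i ∈ Y, D.degreeOf i ≤ κ x) ∧ IsEssentiallyPrimitive Y D ∧ atOne Y D ≠ 0 ∧
    x = mahler (atOne Y D) ∧ mahler D ≤ κ x}

/-- The Mahler measures `x` of the nonzero monomial specialisations
`D_A (z) = D (∏_i z_i ^ A i 1, …, ∏_i z_i ^ A i e)`, `A` an integral matrix, of all the integer
polynomials `D` in any number `e ≥ 1` of variables with degree at most `κ x` in each variable and with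
Mahler measure at most `κ x`. -/
def specialisationMeasures (κ : ℝ → ℕ) : Set ℝ :=
  {x : ℝ | ∃ e l : ℕ, 1 ≤ e ∧ ∃ (D : MvPolynomial (Fin e) ℤ) (A : Fin l → Fin e → ℤ),
    (∀ j, D.degreeOf j ≤ κ x) ∧
    (∃ t : Fin l → ℝ, value D (fun j => ∑ i, t i * (A i j : ℝ)) ≠ 0) ∧
    x = Real.exp (∫ t in Set.Icc (0 : Fin l → ℝ) 1,
      Real.log ‖value D (fun j => ∑ i, t i * (A i j : ℝ))‖) ∧ mahler D ≤ κ x}

/-- The cover of the matrix `A` over the discrete torus `(ℤ / N) ^ k`: the entry at the vertices
`(i, x)` and `(j, y)` is the sum of the absolute values of the coefficients of those monomials of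
`A i j` whose exponents are congruent to `y - x` modulo `N`. -/
def cover {k n : ℕ} (N : ℕ) (A : Matrix (Fin n) (Fin n) (MvPolynomial (Fin k) ℤ)) :
    Matrix (Fin n × (Fin k → ZMod N)) (Fin n × (Fin k → ZMod N)) ℤ :=
  Matrix.of fun p q => ∑ s ∈ (A p.1 q.1).support,
    if ∀ l, ((s l : ℕ) : ZMod N) = q.2 l - p.2 l then |(A p.1 q.1).coeff s| else 0

/-- The Mahler measures `x` of the nonzero determinants of the square matrices of any size over the
polynomials in any number `k ≥ 1` of variables with permanental growth at most `κ x`: the permanent of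
the cover over some discrete torus is at most `κ x ^ (N ^ k)`. -/
def growthMeasures (κ : ℝ → ℕ) : Set ℝ :=
  {x : ℝ | ∃ k : ℕ, 1 ≤ k ∧ ∃ (n : ℕ) (A : Matrix (Fin n) (Fin n) (MvPolynomial (Fin k) ℤ)),
    A.det ≠ 0 ∧ x = mahler A.det ∧ ∃ (N : ℕ) (_ : NeZero N),
      (((cover N A).permanent : ℤ) : ℝ) ≤ (κ x : ℝ) ^ (N ^ k)}

/-- **Theorem.** (1) For all `m` and `B` there is `K` such that for every irreducible `P` in any number
of variables and every set `Y` of variables, if `P` contains a variable of `Y`, has degree at most `m`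
in every variable of `Y` and Mahler measure at most `B`, and if `P (z, 1) ≠ 0`, then `P (z, 1)` and `P`
are coprime and `∫ log max(|P (z, 1)|, |P|) ≤ log M(P) + K`.
(2) A set `T` has bounded companions if and only if it is contained in `liftMeasures κ` for some
monotone `κ`.
(3) If `κ` is monotone and `T` has bounded companions, then the monoid generated by `T` and
`liftMeasures κ` has bounded companions, its closure consists of Mahler measures of integer polynomials,
it has a gap above one, and it has finite Cantor-Bendixson rank below every bound.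
(4) `specialisationMeasures κ` and `growthMeasures κ` are contained in `liftMeasures κ`. -/
theorem result :
    (∀ (m : ℕ) (B : ℝ), ∃ K : ℝ, ∀ (n : ℕ) (P : MvPolynomial (Fin n) ℤ) (Y : Finset (Fin n)),
      Irreducible P → (∀ i ∈ Y, P.degreeOf i ≤ m) → (∃ i ∈ Y, P.degreeOf i ≠ 0) → mahler P ≤ B →
        atOne Y P ≠ 0 → IsRelPrime (atOne Y P) P ∧
          pairHeight (atOne Y P) P ≤ Real.log (mahler P) + K) ∧
    (∀ T : Set ℝ, BoundedCompanions T ↔ ∃ κ : ℝ → ℕ, Monotone κ ∧ T ⊆ liftMeasures κ) ∧
    (∀ (κ : ℝ → ℕ) (T : Set ℝ), Monotone κ → BoundedCompanions T →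
      BoundedCompanions (Submonoid.closure (T ∪ liftMeasures κ) : Submonoid ℝ) ∧
      closure ((Submonoid.closure (T ∪ liftMeasures κ) : Submonoid ℝ) : Set ℝ) ⊆ allMeasures ∧
      (∃ δ : ℝ, 1 < δ ∧ ∀ x ∈ (Submonoid.closure (T ∪ liftMeasures κ) : Submonoid ℝ),
        x = 1 ∨ δ ≤ x) ∧
      ∀ B : ℝ, ∃ m : ℕ, ∀ x ∈ derivedSet^[m]
        ((Submonoid.closure (T ∪ liftMeasures κ) : Submonoid ℝ) : Set ℝ), B ≤ x) ∧
    (∀ κ : ℝ → ℕ, specialisationMeasures κ ⊆ liftMeasures κ ∧
      growthMeasures κ ⊆ liftMeasures κ) := by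
  refine ⟨fun m B => ?_, fun T => ⟨fun hT => ?_, ?_⟩, ?_, fun κ => ⟨?_, ?_⟩⟩
  · obtain ⟨K, -, hK⟩ := Pool.Agent.H2.BD.irr m B
    exact ⟨K, fun n P Y hP hdeg hY hB h0 =>
      ⟨Pool.Agent.H2.BD.relPrime hP Y hY h0, hK n P Y hP hdeg hY hB h0⟩⟩
  · exact Pool.Agent.H2.BD.lifts_of_BC T hT
  · rintro ⟨κ, hκ, hT⟩ B
    obtain ⟨K, hK⟩ := Pool.Agent.H2.BD.BC_lifts κ hκ B
    exact ⟨K, fun x hx => hK ⟨hT hx.1, hx.2⟩⟩
  · intro κ T hκ hT
    have h1 : Pool.Agent.TH845.KN.BC
        ((Submonoid.closure (T ∪ liftMeasures κ) : Submonoid ℝ) : Set ℝ) :=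
      Pool.Agent.TH845.KN.BC_monoid
        (Pool.Agent.TH845.KN.BC.union hT (Pool.Agent.H2.BD.BC_lifts κ hκ))
    obtain ⟨h2, h3⟩ := Pool.Agent.W242.IM.closure_of_LL _ h1
    exact ⟨h1, h2, Pool.Agent.TH845.KN.gap_BC h1, h3⟩
  · exact Pool.Agent.H2.BD.specs_sub κ
  · rintro x ⟨k, hk, n, A, h0, rfl, N, hN, hp⟩
    exact Pool.Agent.H2.BD.growth_mem κ hk A h0 N hp

end

end Pool.Agent.Results.MP_6d22ea_nt.BoundedDegreeLifts
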