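import Pool.Agent.H2.DF.Deg

/-!
# Boyd's problem: the set of all Mahler measures is the union of an increasing sequence of closed sets `D_0, D_1, …`,
where `D_m` belongs to the algebraic functions of degree at most `m`

Let `F` be an integer polynomial in `z_1, …, z_k` and one more variable `y`, of degree at most `m` in `y`,
`F = A_0(z) + A_1(z) y + … + A_m(z) y^m`, and suppose that the common divisors of `A_0, …, A_m` have measure one. (If
`F` is irreducible and `α` is a root of `F` in an algebraic closure of `ℚ(z_1, …, z_k)`, then `log M(F) / deg α` is the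
height of the algebraic function `α`.) Let `D_m` be the set of the measures of these `F`, for all `k = 0, 1, 2, …`.
For `k = 0` these are the measures of the primitive integer polynomials of degree at most `m` in one variable.

We show that every `D_m` is CLOSED, that `D_0 ⊆ D_1 ⊆ …`, and that the union is the set of all Mahler measures. Every
`D_m` has bounded companions; so it has finite Cantor-Bendixson rank below every bound. So the difficulty in Boyd's
problem is only that the number `m` which is needed for the measures below a bound could be unbounded. (Known before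
from the library: `D_m` has bounded companions, at least for primitive `F`, so that its closure consists of Mahler
measures; and the closedness for `m = 1`, which is the case of the heights of rational functions.)

More generally let `Φ_0, …, Φ_m` be bihomogeneous integral forms of the same positive bidegree in `r` pairs of
variables without common zero at the points `(x, conj x)`, `x ≠ 0`. Then the set of the measures of the polynomials
`∑ Φ_j(P, P^*) y^j` for the essentially coprime tuples `P = (P_1, …, P_r)` is closed and has bounded companions.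

Method: the pair heights of a tuple are bounded by the measure of `F`, by Mahler's inequality for the coefficients and
integration over the other variables. So one has the compactness theorem for coprime tuples. The limit of the measures
is the measure of the limit, since a specialisation of the variables `z` only is, up to a small error, a specialisation
of all variables if the exponent of `y` is large enough.
-/

set_option autoImplicit false

namespace Pool.Agent.Results.MP_6d22ea_nt.DegreeFiltration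

open MvPolynomial

noncomputable section

/-- Value of an integer polynomial in `k` variables at the torus point
`(exp (2 π i t_1), …, exp (2 π i t_k))`. -/
def value {k : ℕ} (F : MvPolynomial (Fin k) ℤ) (t : Fin k → ℝ) : ℂ :=
  MvPolynomial.eval (fun j : Fin k => Complex.exp (2 * (Real.pi : ℂ) * Complex.I * ((t j : ℝ) : ℂ)))
    (MvPolynomial.map (Int.castRingHom ℂ) F)

/-- The Mahler measure of an integer polynomial in `k` variables. -/
def mahler {k : ℕ} (F : MvPolynomial (Fin k) ℤ) : ℝ :=
  Real.exp (∫ t in Set.Icc (0 : Fin k → ℝ) 1, Real.log ‖value F t‖)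

/-- The integral of `log max(|F|, |G|)` over the torus. -/
def pairHeight {k : ℕ} (F G : MvPolynomial (Fin k) ℤ) : ℝ :=
  ∫ t in Set.Icc (0 : Fin k → ℝ) 1, Real.log (max ‖value F t‖ ‖value G t‖)

/-- The set of the Mahler measures of the nonzero integer polynomials in any number of variables. -/
def allMeasures : Set ℝ :=
  {x : ℝ | ∃ k : ℕ, 1 ≤ k ∧ ∃ F : MvPolynomial (Fin k) ℤ, F ≠ 0 ∧ x = mahler F}

/-- The Mahler measures of the nonzero polynomials `F` having a coprime companion `G ≠ 0` with
`∫ log max(|F|, |G|) ≤ K`. -/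
def L (K : ℝ) : Set ℝ :=
  {x : ℝ | ∃ k : ℕ, 1 ≤ k ∧ ∃ F G : MvPolynomial (Fin k) ℤ, F ≠ 0 ∧ G ≠ 0 ∧ IsRelPrime F G ∧
    pairHeight F G ≤ K ∧ x = mahler F}

/-- For every `B` some `L K` contains all elements of `T` below `B`. -/
def BoundedCompanions (T : Set ℝ) : Prop := ∀ B : ℝ, ∃ K : ℝ, T ∩ Set.Iio B ⊆ L K

/-- All common divisors have Mahler measure one (for instance: there are none except `1` and `-1`). -/
def EssentiallyCoprime {ι : Type} {k : ℕ} (P : ι → MvPolynomial (Fin k) ℤ) : Prop :=
  ∀ D : MvPolynomial (Fin k) ℤ, (∀ i, D ∣ P i) → mahler D = 1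

/-- The polynomial `∑ A_j(z) y^j` in `k + 1` variables, `y` the variable with the number `0`. -/
def inY {m k : ℕ} (A : Fin (m + 1) → MvPolynomial (Fin k) ℤ) : MvPolynomial (Fin (k + 1)) ℤ :=
  ∑ j, rename Fin.succ (A j) * X 0 ^ (j : ℕ)

/-- The set `D_m`: the Mahler measures of the polynomials `∑ A_j(z) y^j`, `j ≤ m`, in any number of variables, with
essentially coprime coefficients `A_0, …, A_m`. -/
def degreeMeasures (m : ℕ) : Set ℝ :=
  {x : ℝ | ∃ (k : ℕ) (A : Fin (m + 1) → MvPolynomial (Fin k) ℤ), EssentiallyCoprime A ∧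
    x = mahler (inY A)}

/-- `z^d P(1/z)`, `d ≥ deg P`. -/
def reversed {k : ℕ} (d : Fin k → ℕ) (P : MvPolynomial (Fin k) ℤ) : MvPolynomial (Fin k) ℤ :=
  ∑ s ∈ P.support, monomial (Finsupp.equivFunOnFinite.symm fun i => d i - s i) (P.coeff s)

/-- The common degree vector of a tuple: the largest degrees in the variables. -/
def degrees {r k : ℕ} (P : Fin r → MvPolynomial (Fin k) ℤ) (j : Fin k) : ℕ :=
  Finset.univ.sup fun i => (P i).degreeOf j

/-- The polynomial `Φ(P_1, …, P_r, z^d P_1(1/z), …, z^d P_r(1/z))`, `d` the common degree vector. On the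
torus it is `z^(b d) Φ(P_1, …, P_r, conj P_1, …, conj P_r)` for `Φ` of bidegree `(a, b)`. -/
def formValue {r k : ℕ} (Φ : MvPolynomial (Fin r ⊕ Fin r) ℤ) (P : Fin r → MvPolynomial (Fin k) ℤ) :
    MvPolynomial (Fin k) ℤ :=
  aeval (Sum.elim P fun i => reversed (degrees P) (P i)) Φ

/-- Homogeneous of degree `a` in the first and of degree `b` in the second group of variables. -/
def Bihomogeneous {r : ℕ} (Φ : MvPolynomial (Fin r ⊕ Fin r) ℤ) (a b : ℕ) : Prop :=
  ∀ s ∈ Φ.support, (∑ i, s (Sum.inl i) = a) ∧ ∑ i, s (Sum.inr i) = b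

/-- For every complex vector `x ≠ 0` some `Φ_j(x, conj x)` is not zero. -/
def NoCommonZero {r m : ℕ} (Φ : Fin (m + 1) → MvPolynomial (Fin r ⊕ Fin r) ℤ) : Prop :=
  ∀ x : Fin r → ℂ, x ≠ 0 → ∃ j,
    eval (Sum.elim x fun i => starRingEnd ℂ (x i)) (map (Int.castRingHom ℂ) (Φ j)) ≠ 0

/-- The measures of the polynomials `∑ Φ_j(P, P^*) y^j` for the essentially coprime tuples `P`. -/
def familyMeasures {r m : ℕ} (Φ : Fin (m + 1) → MvPolynomial (Fin r ⊕ Fin r) ℤ) : Set ℝ :=
  {x : ℝ | ∃ (k : ℕ) (P : Fin r → MvPolynomial (Fin k) ℤ), EssentiallyCoprime P ∧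
    x = mahler (inY fun j => formValue (Φ j) P)}

open Pool.Agent.W5h6.HS in
theorem ess_of_cop {ι : Type} {k : ℕ} {P : ι → MvPolynomial (Fin k) ℤ} (hP : Cop P) :
    EssentiallyCoprime P := by
  intro D hD
  have hu := hP D hD
  rw [MvPolynomial.isUnit_iff_eq_C_of_isReduced] at hu
  obtain ⟨c, hc, rfl⟩ := hu
  unfold mahler
  have h1 : ∀ t, ‖value (C c : MvPolynomial (Fin k) ℤ) t‖ = 1 := by
    intro t
    have h5 : value (C c : MvPolynomial (Fin k) ℤ) t = (c : ℂ) := by simp [value]
    rw [h5]
    rcases Int.isUnit_iff.mp hc with rfl | rfl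
    · simp
    · simp
  simp only [h1]
  simp

open Pool.Agent.H2.DF in
theorem familyMeasures_eq {r m : ℕ} (Φ : Fin (m + 1) → MvPolynomial (Fin r ⊕ Fin r) ℤ) {a b : ℕ}
    (h : ∀ j, Bihomogeneous (Φ j) a b) (hE : NoCommonZero Φ) : familyMeasures Φ = SFY Φ := by
  ext x
  constructor
  · rintro ⟨k, P, hP, rfl⟩
    obtain ⟨Q, hQ, h1⟩ := reduce_essF Φ h hE P hP
    exact ⟨k, Q, hQ, h1⟩
  · rintro ⟨k, P, hP, rfl⟩
    exact ⟨k, P, ess_of_cop hP, rfl⟩

open Pool.Agent.H2.DF in
theorem degreeMeasures_eq (m : ℕ) : degreeMeasures m = SFY (lin m) := by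
  have h1 : ∀ (k : ℕ) (A : Fin (m + 1) → MvPolynomial (Fin k) ℤ), inY A = FY (lin m) A := by
    intro k A
    rw [FY_lin]
    rfl
  ext x
  constructor
  · rintro ⟨k, A, hA, rfl⟩
    obtain ⟨Q, hQ, h2⟩ := reduce_essF (lin m) (biHom_lin m) (ell_lin m) A hA
    exact ⟨k, Q, hQ, by rw [h1]; exact h2⟩
  · rintro ⟨k, P, hP, rfl⟩
    exact ⟨k, P, ess_of_cop hP, by rw [h1]; rfl⟩

/-- (1) Every set `D_m` is closed, `D_m ⊆ D_{m+1}`, the element `x` of `D_m` is in `L (log x + m log 2)`, and `D_m`
has finite Cantor-Bendixson rank below every bound. (2) The union of the sets `D_m` is the set of all Mahler measures.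
So this set is closed if for every `B` its elements below `B` are in some `D_m`. (3) Let `Φ_0, …, Φ_m` be
bihomogeneous integral forms of the same positive bidegree in `r ≥ 1` pairs of variables without common zero at the
points `(x, conj x)`, `x ≠ 0`. The set of the measures of `∑ Φ_j(P, P^*) y^j` for the essentially coprime tuples `P`
is closed and has bounded companions. (4) Let `T` be a set with bounded companions. The monoid generated by `T` and
`D_m` has bounded companions, its closure consists of Mahler measures, `1` is isolated in it, and below every bound it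
has finite Cantor-Bendixson rank. -/
theorem result :
    (∀ m : ℕ, IsClosed (degreeMeasures m) ∧ degreeMeasures m ⊆ degreeMeasures (m + 1) ∧
      (∀ x ∈ degreeMeasures m, x ∈ L (Real.log x + m * Real.log 2)) ∧
      ∀ B : ℝ, ∃ s : ℕ, ∀ x ∈ derivedSet^[s] (degreeMeasures m), B ≤ x) ∧
    ((⋃ m : ℕ, degreeMeasures m) = allMeasures ∧
      ((∀ B : ℝ, ∃ m : ℕ, allMeasures ∩ Set.Iio B ⊆ degreeMeasures m) → IsClosed allMeasures)) ∧
    (∀ (r m a b : ℕ), 1 ≤ r → 0 < a + b →
      ∀ Φ : Fin (m + 1) → MvPolynomial (Fin r ⊕ Fin r) ℤ, (∀ j, Bihomogeneous (Φ j) a b) →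
        NoCommonZero Φ → IsClosed (familyMeasures Φ) ∧ BoundedCompanions (familyMeasures Φ)) ∧
    (∀ (m : ℕ) (T : Set ℝ), BoundedCompanions T →
      BoundedCompanions (Submonoid.closure (T ∪ degreeMeasures m) : Submonoid ℝ) ∧
      closure ((Submonoid.closure (T ∪ degreeMeasures m) : Submonoid ℝ) : Set ℝ) ⊆ allMeasures ∧
      (∃ δ : ℝ, 1 < δ ∧ ∀ x ∈ (Submonoid.closure (T ∪ degreeMeasures m) : Submonoid ℝ),
        x = 1 ∨ δ ≤ x) ∧
      ∀ B : ℝ, ∃ s : ℕ, ∀ x ∈ derivedSet^[s]
        ((Submonoid.closure (T ∪ degreeMeasures m) : Submonoid ℝ) : Set ℝ), B ≤ x) := by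
  have hBC : ∀ m, Pool.Agent.TH845.KN.BC (degreeMeasures m) := by
    intro m
    rw [degreeMeasures_eq]
    exact Pool.Agent.H2.DF.BC_SFY (by omega) _ (Pool.Agent.H2.DF.biHom_lin m)
      (Pool.Agent.H2.DF.ell_lin m) (by norm_num)
  have hcl : ∀ m, IsClosed (degreeMeasures m) := by
    intro m
    rw [degreeMeasures_eq]
    exact Pool.Agent.H2.DF.closed_SFY _ (Pool.Agent.H2.DF.biHom_lin m)
      (Pool.Agent.H2.DF.ell_lin m) (by norm_num)
  have hmono1 : ∀ m, degreeMeasures m ⊆ degreeMeasures (m + 1) := by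
    intro m
    rw [degreeMeasures_eq, degreeMeasures_eq]
    exact Pool.Agent.H2.DF.SFY_mono m
  have hsub : ∀ m, degreeMeasures m ⊆ allMeasures := by
    intro m
    exact subset_closure.trans (Pool.Agent.W242.IM.closure_of_LL _ (hBC m)).1
  refine ⟨fun m => ⟨hcl m, hmono1 m, ?_, (Pool.Agent.W242.IM.closure_of_LL _ (hBC m)).2⟩,
    ⟨?_, fun h => ?_⟩, ?_, ?_⟩
  · intro x hx
    rw [degreeMeasures_eq] at hx
    obtain ⟨k, P, hP, rfl⟩ := hx
    exact Pool.Agent.H2.DF.mem_LL_lin P hP
  · refine Set.Subset.antisymm (Set.iUnion_subset hsub) ?_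
    rintro x ⟨k, _, F, hF, rfl⟩
    obtain ⟨m, hm⟩ := Pool.Agent.H2.DF.all_mem F hF
    rw [← degreeMeasures_eq] at hm
    exact Set.mem_iUnion.2 ⟨m, hm⟩
  · refine isClosed_of_closure_subset fun x hx => ?_
    obtain ⟨m, hm⟩ := h (x + 1)
    refine hsub m ((hcl m).closure_subset_iff.2 hm ?_)
    rw [mem_closure_iff_nhds] at hx ⊢
    intro t ht
    obtain ⟨y, hy1, hy2⟩ := hx (t ∩ Set.Iio (x + 1))
      (Filter.inter_mem ht (Iio_mem_nhds (by linarith)))
    exact ⟨y, hy1.1, hy2, hy1.2⟩
  · intro r m a b hr hab Φ h hE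
    have : Nonempty (Fin r) := ⟨⟨0, hr⟩⟩
    rw [familyMeasures_eq Φ h hE]
    exact ⟨Pool.Agent.H2.DF.closed_SFY Φ h hE hab, Pool.Agent.H2.DF.BC_SFY hr Φ h hE hab⟩
  · intro m T hT
    have h1 : Pool.Agent.TH845.KN.BC
        ((Submonoid.closure (T ∪ degreeMeasures m) : Submonoid ℝ) : Set ℝ) :=
      Pool.Agent.TH845.KN.BC_monoid (Pool.Agent.TH845.KN.BC.union hT (hBC m))
    obtain ⟨h2, h3⟩ := Pool.Agent.W242.IM.closure_of_LL _ h1
    exact ⟨h1, h2, Pool.Agent.TH845.KN.gap_BC h1, h3⟩

end

end Pool.Agent.Results.MP_6d22ea_nt.DegreeFiltration
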