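import Pool.Agent.H25.DM.Poly
import Pool.Agent.H25.DM.Spec

/-!
# Boyd's problem for determinants of weakly dominated matrices

`A` is a square matrix of integer polynomials in any number of variables. From every row and every
column one coefficient `c i` is chosen (of one monomial in the entry `(i, σ i)`). The comparison matrix
has the `|c i|` on the diagonal and, with the sign `-`, the sums of the absolute values of all other
coefficients of the entries. `A` is weakly dominated if the comparison matrix is a, possibly singular,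
M-matrix: for every `ε > 0` there are positive weights for which in every row the other coefficients
weigh at most as much as `|c i| + ε`. (For example the Laplace matrices of periodic directed graphs,
and `λ - B` for a matrix `B` of polynomials with nonnegative coefficients and an integer `λ` not
smaller than the spectral radius of `B (1, …, 1)`.)

* If `A` is irreducible and `F = det A ≠ 0` then the integral over the torus of `log max(|F|, 1)`
  exceeds `log M(F)` by at most `log 20`, whatever the size, the number of variables and the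
  coefficients: the constant one is a bounded companion.
* The measures of all these determinants, together with any set with bounded companions, generate a
  monoid with bounded companions. Its closure consists of Mahler measures of integer polynomials, it
  has a gap above one and finite Cantor-Bendixson rank below every bound.
-/

set_option autoImplicit false

namespace Pool.Agent.Results.MP_6d22ea_nt.WeaklyDominatedMatrices

open MeasureTheory

noncomputable section

/-- Value of an integer polynomial in `k` variables at the torus point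
`(exp (2 π i t_1), …, exp (2 π i t_k))`. -/
def value {k : ℕ} (F : MvPolynomial (Fin k) ℤ) (t : Fin k → ℝ) : ℂ :=
  MvPolynomial.eval (fun j : Fin k => Complex.exp (2 * (Real.pi : ℂ) * Complex.I * ((t j : ℝ) : ℂ)))
    (MvPolynomial.map (Int.castRingHom ℂ) F)

/-- The Mahler measure of an integer polynomial in `k` variables. -/
def mahler {k : ℕ} (F : MvPolynomial (Fin k) ℤ) : ℝ :=
  Real.exp (∫ t in Set.Icc (0 : Fin k → ℝ) 1, Real.log ‖value F t‖)

/-- The set of the Mahler measures of the nonzero integer polynomials in any number of variables. -/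
def allMeasures : Set ℝ :=
  {x : ℝ | ∃ k : ℕ, 1 ≤ k ∧ ∃ F : MvPolynomial (Fin k) ℤ, F ≠ 0 ∧ x = mahler F}

/-- The integral of `log max(|F|, |G|)` over the torus. -/
def pairHeight {k : ℕ} (F G : MvPolynomial (Fin k) ℤ) : ℝ :=
  ∫ t in Set.Icc (0 : Fin k → ℝ) 1, Real.log (max ‖value F t‖ ‖value G t‖)

/-- The Mahler measures of the nonzero polynomials `F` having a coprime companion `G ≠ 0` with
`∫ log max(|F|, |G|) ≤ K`. -/
def L (K : ℝ) : Set ℝ :=
  {x : ℝ | ∃ k : ℕ, 1 ≤ k ∧ ∃ F G : MvPolynomial (Fin k) ℤ, F ≠ 0 ∧ G ≠ 0 ∧ IsRelPrime F G ∧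
    pairHeight F G ≤ K ∧ x = mahler F}

/-- For every `B` some `L K` contains all elements of `T` below `B`. -/
def BoundedCompanions (T : Set ℝ) : Prop := ∀ B : ℝ, ∃ K : ℝ, T ∩ Set.Iio B ⊆ L K

/-- The length (sum of the absolute values of the coefficients). -/
def length {k : ℕ} (F : MvPolynomial (Fin k) ℤ) : ℤ := ∑ s ∈ F.support, |F.coeff s|

/-- The matrix `A` is weakly dominated by coefficients `c i` of the monomials `s i` in the entries
`(i, σ i)`: for every `ε > 0` there are positive weights `p j` of the columns such that in every row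
`i` the sum of the absolute values of all coefficients except `c i`, times the weights of their columns,
is at most `|c i| + ε` times the weight of the column `σ i`. (That is, the matrix with the `|c i|` minus
the sums of the absolute values of the other coefficients on the diagonal, and minus the sums of the
absolute values off the diagonal, is an M-matrix, possibly singular.) -/
def IsWeaklyDominated {k n : ℕ} (A : Matrix (Fin n) (Fin n) (MvPolynomial (Fin k) ℤ))
    (σ : Equiv.Perm (Fin n)) : Prop :=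
  ∃ s : Fin n → Fin k →₀ ℕ, ∀ ε : ℝ, 0 < ε → ∃ p : Fin n → ℝ, (∀ i, 0 < p i) ∧
    ∀ i, (∑ j, (length (A i j) : ℝ) * p j) - |(((A i (σ i)).coeff (s i) : ℤ) : ℝ)| * p (σ i) ≤
      (|(((A i (σ i)).coeff (s i) : ℤ) : ℝ)| + ε) * p (σ i)

/-- There is no nonempty proper set `S` of rows whose nonzero entries are all in the columns
`σ j`, `j ∈ S`. -/
def IsIrreducible {k n : ℕ} (A : Matrix (Fin n) (Fin n) (MvPolynomial (Fin k) ℤ))
    (σ : Equiv.Perm (Fin n)) : Prop :=
  ∀ S : Set (Fin n), S.Nonempty → (∀ i ∈ S, ∀ j, j ∉ S → A i (σ j) = 0) → S = Set.univ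

/-- The Mahler measures of the nonzero determinants of the weakly dominated matrices, of any size and
in any number of variables. -/
def weaklyDominatedMeasures : Set ℝ :=
  {x : ℝ | ∃ k : ℕ, 1 ≤ k ∧ ∃ (n : ℕ) (A : Matrix (Fin n) (Fin n) (MvPolynomial (Fin k) ℤ))
    (σ : Equiv.Perm (Fin n)), IsWeaklyDominated A σ ∧ A.det ≠ 0 ∧ x = mahler A.det}

open Pool.Agent.H261R2.CM in
theorem permuted {k n : ℕ} (A : Matrix (Fin n) (Fin n) (MvPolynomial (Fin k) ℤ))
    (σ : Equiv.Perm (Fin n)) (t : Fin k → ℝ) :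
    ‖tv (A.submatrix id σ).det t‖ = ‖tv A.det t‖ := by
  rw [Matrix.det_permute', J.tv_mul, norm_mul]
  have h1 : ‖tv (((Equiv.Perm.sign σ : ℤˣ) : ℤ) : MvPolynomial (Fin k) ℤ) t‖ = 1 := by
    rw [J.tv_eq, map_intCast]
    rcases Int.units_eq_one_or (Equiv.Perm.sign σ) with h | h <;> rw [h] <;> simp
  rw [h1, one_mul]

theorem wd_of {k n : ℕ} {A : Matrix (Fin n) (Fin n) (MvPolynomial (Fin k) ℤ)}
    {σ : Equiv.Perm (Fin n)} (h : IsWeaklyDominated A σ) :
    ∃ s : Fin n → Fin k →₀ ℕ, H25.DM.SD (A.submatrix id σ) s := by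
  obtain ⟨s, h⟩ := h
  refine ⟨s, fun ε hε => ?_⟩
  obtain ⟨p, hp, hd⟩ := h ε hε
  refine ⟨fun i => p (σ i), fun i => hp _, fun i => ?_⟩
  have h1 := hd i
  have h2 : ∑ j, ((H25.DM.len ((A.submatrix id σ) i j) : ℤ) : ℝ) * p (σ j) =
      ∑ j, (length (A i j) : ℝ) * p j :=
    Equiv.sum_comp σ (fun j => (length (A i j) : ℝ) * p j)
  rw [h2]
  simp only [Matrix.submatrix_apply, id]
  linarith

theorem det_ne {k n : ℕ} {A : Matrix (Fin n) (Fin n) (MvPolynomial (Fin k) ℤ)}
    {σ : Equiv.Perm (Fin n)} (h : A.det ≠ 0) : (A.submatrix id σ).det ≠ 0 := by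
  rw [Matrix.det_permute']
  intro h0
  rcases mul_eq_zero.1 h0 with h1 | h1
  · rcases Int.units_eq_one_or (Equiv.Perm.sign σ) with h2 | h2 <;> rw [h2] at h1 <;> simp at h1
  · exact h h1

/-- the length of the difference of a constant and a polynomial with nonnegative coefficients -/
theorem length_sub {k : ℕ} (d : ℤ) (P : MvPolynomial (Fin k) ℤ) (hP : ∀ m, 0 ≤ P.coeff m)
    (hd : P.coeff 0 ≤ d) : length (MvPolynomial.C d - P) =
      (d - P.coeff 0) + (MvPolynomial.eval (fun _ => (1 : ℤ)) P - P.coeff 0) := by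
  classical
  have hev : MvPolynomial.eval (fun _ => (1 : ℤ)) P = ∑ m ∈ P.support, P.coeff m := by
    rw [MvPolynomial.eval_eq]
    simp
  set U := insert 0 P.support with hU
  have h1 : length (MvPolynomial.C d - P) = ∑ m ∈ U, |(MvPolynomial.C d - P).coeff m| := by
    unfold length
    refine Finset.sum_subset ?_ fun m _ hm => ?_
    · intro m hm
      rw [MvPolynomial.mem_support_iff] at hm
      rw [hU, Finset.mem_insert, MvPolynomial.mem_support_iff]
      by_contra hcon
      push Not at hcon
      apply hm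
      rw [MvPolynomial.coeff_sub, MvPolynomial.coeff_C, if_neg (fun h => hcon.1 h.symm), hcon.2,
        sub_zero]
    · rw [MvPolynomial.notMem_support_iff.1 hm, abs_zero]
  have h2 : ∑ m ∈ P.support, P.coeff m = ∑ m ∈ U, P.coeff m := by
    refine Finset.sum_subset (Finset.subset_insert _ _) fun m _ hm => ?_
    exact MvPolynomial.notMem_support_iff.1 hm
  have h0 : (0 : Fin k →₀ ℕ) ∈ U := Finset.mem_insert_self _ _
  rw [h1, hev, h2, ← Finset.add_sum_erase _ _ h0, ← Finset.add_sum_erase _ _ h0]
  have h3 : ∀ m ∈ U.erase 0, |(MvPolynomial.C d - P).coeff m| = P.coeff m := by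
    intro m hm
    rw [MvPolynomial.coeff_sub, MvPolynomial.coeff_C,
      if_neg (fun h => (Finset.ne_of_mem_erase hm) h.symm), zero_sub, abs_neg, abs_of_nonneg (hP m)]
  rw [Finset.sum_congr rfl h3, MvPolynomial.coeff_sub, MvPolynomial.coeff_C, if_pos rfl,
    abs_of_nonneg (by linarith)]
  ring

theorem length_neg {k : ℕ} (P : MvPolynomial (Fin k) ℤ) (hP : ∀ m, 0 ≤ P.coeff m) :
    length (-P) = MvPolynomial.eval (fun _ => (1 : ℤ)) P := by
  have hev : MvPolynomial.eval (fun _ => (1 : ℤ)) P = ∑ m ∈ P.support, P.coeff m := by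
    rw [MvPolynomial.eval_eq]
    simp
  rw [hev]
  unfold length
  rw [MvPolynomial.support_neg]
  refine Finset.sum_congr rfl fun m _ => ?_
  rw [MvPolynomial.coeff_neg, abs_neg, abs_of_nonneg (hP m)]

theorem dominated_sub {k n : ℕ} (B : Matrix (Fin n) (Fin n) (MvPolynomial (Fin k) ℤ))
    (d : Fin n → ℤ) (hB : ∀ i j m, 0 ≤ (B i j).coeff m)
    (h : ∀ ε : ℝ, 0 < ε → ∃ p : Fin n → ℝ, (∀ i, 0 < p i) ∧
      ∀ i, ∑ j, ((MvPolynomial.eval (fun _ => (1 : ℤ)) (B i j) : ℤ) : ℝ) * p j ≤
        (d i + ε) * p i) :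
    IsWeaklyDominated (Matrix.diagonal (fun i => MvPolynomial.C (d i)) - B) (Equiv.refl _) := by
  have hev : ∀ i j, 0 ≤ MvPolynomial.eval (fun _ => (1 : ℤ)) (B i j) := by
    intro i j
    rw [MvPolynomial.eval_eq]
    refine Finset.sum_nonneg fun m _ => mul_nonneg (hB i j m) ?_
    simp
  have hev0 : ∀ i j, (B i j).coeff 0 ≤ MvPolynomial.eval (fun _ => (1 : ℤ)) (B i j) := by
    intro i j
    rw [MvPolynomial.eval_eq]
    simp only [one_pow, Finset.prod_const_one, mul_one]
    by_cases h0 : (0 : Fin k →₀ ℕ) ∈ (B i j).support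
    · exact Finset.single_le_sum (f := fun m => (B i j).coeff m) (fun m _ => hB i j m) h0
    · rw [MvPolynomial.notMem_support_iff.1 h0]
      exact Finset.sum_nonneg fun m _ => hB i j m
  have hdi : ∀ i, MvPolynomial.eval (fun _ => (1 : ℤ)) (B i i) ≤ d i := by
    intro i
    have h2 : ((MvPolynomial.eval (fun _ => (1 : ℤ)) (B i i) : ℤ) : ℝ) ≤ d i := by
      refine le_of_forall_pos_le_add fun ε hε => ?_
      obtain ⟨p, hp, hd⟩ := h ε hε
      have h1 : ((MvPolynomial.eval (fun _ => (1 : ℤ)) (B i i) : ℤ) : ℝ) * p i ≤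
          (d i + ε) * p i :=
        (Finset.single_le_sum (f := fun j =>
          ((MvPolynomial.eval (fun _ => (1 : ℤ)) (B i j) : ℤ) : ℝ) * p j)
          (fun j _ => mul_nonneg (by exact_mod_cast hev i j) (hp j).le)
          (Finset.mem_univ i)).trans (hd i)
      exact le_of_mul_le_mul_right h1 (hp i)
    exact_mod_cast h2
  refine ⟨fun _ => 0, fun ε hε => ?_⟩
  obtain ⟨p, hp, hd⟩ := h ε hε
  refine ⟨p, hp, fun i => ?_⟩
  set A := Matrix.diagonal (fun i => (MvPolynomial.C (d i) : MvPolynomial (Fin k) ℤ)) - B with hA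
  have hAii : A i i = MvPolynomial.C (d i) - B i i := by
    rw [hA, Matrix.sub_apply, Matrix.diagonal_apply_eq]
  have hAij : ∀ j, j ≠ i → A i j = -B i j := by
    intro j hj
    rw [hA, Matrix.sub_apply, Matrix.diagonal_apply_ne _ hj.symm, zero_sub]
  have hlen : ∀ j, (length (A i j) : ℝ) * p j =
      ((MvPolynomial.eval (fun _ => (1 : ℤ)) (B i j) : ℤ) : ℝ) * p j +
        if j = i then ((d i : ℝ) - 2 * (((B i i).coeff 0 : ℤ) : ℝ)) * p i else 0 := by
    intro j
    by_cases h : j = i
    · subst h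
      rw [hAii, length_sub _ _ (hB j j) ((hev0 j j).trans (hdi j)), if_pos rfl]
      push_cast
      ring
    · rw [if_neg h, hAij j h, length_neg _ (hB i j), add_zero]
  have hco : |(((A i ((Equiv.refl (Fin n)) i)).coeff 0 : ℤ) : ℝ)| =
      (d i : ℝ) - (((B i i).coeff 0 : ℤ) : ℝ) := by
    rw [Equiv.refl_apply, hAii, MvPolynomial.coeff_sub, MvPolynomial.coeff_C, if_pos rfl]
    have h2 : (0 : ℝ) ≤ ((d i - (B i i).coeff 0 : ℤ) : ℝ) := by
      exact_mod_cast sub_nonneg.2 ((hev0 i i).trans (hdi i))
    rw [abs_of_nonneg h2]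
    push_cast
    ring
  rw [hco, Finset.sum_congr rfl fun j _ => hlen j, Finset.sum_add_distrib,
    Finset.sum_ite_eq' Finset.univ i, if_pos (Finset.mem_univ i), Equiv.refl_apply]
  have := hd i
  linarith

/-- **Theorem.** (1) If `A` is weakly dominated and irreducible and `F = det A` is not zero, then
`∫ log max(|F|, 1) ≤ log M(F) + log 20`.
(2) The Mahler measures of the nonzero determinants of weakly dominated matrices are at least one and
are products of numbers `y` in this set with `y ∈ L (log y + log 20)`.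
(3) Let `T` be a set with bounded companions. The monoid generated by `T` and the measures of the
nonzero determinants of the weakly dominated matrices has bounded companions, its closure consists of
Mahler measures of integer polynomials, it has a gap above one, and it has finite Cantor-Bendixson rank
below every bound.
(4) Let `B` be a matrix of polynomials with nonnegative integer coefficients. If the `d i` are integers
with `∑ j, B i j (1, …, 1) ≤ d i` for all `i`, then `diag(d) - B` is weakly dominated.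
(5) If the natural number `l` is not smaller than the absolute values of the eigenvalues of
`B (1, …, 1)`, then `l - B` is weakly dominated. -/
theorem result :
    (∀ (k n : ℕ) (A : Matrix (Fin n) (Fin n) (MvPolynomial (Fin k) ℤ)) (σ : Equiv.Perm (Fin n)),
      IsWeaklyDominated A σ → IsIrreducible A σ → A.det ≠ 0 →
        pairHeight A.det 1 ≤ Real.log (mahler A.det) + Real.log 20) ∧
    (∀ x ∈ weaklyDominatedMeasures, 1 ≤ x ∧
      x ∈ Submonoid.closure {y ∈ weaklyDominatedMeasures | y ∈ L (Real.log y + Real.log 20)}) ∧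
    (∀ T : Set ℝ, BoundedCompanions T →
      BoundedCompanions (Submonoid.closure (T ∪ weaklyDominatedMeasures) : Submonoid ℝ) ∧
      closure ((Submonoid.closure (T ∪ weaklyDominatedMeasures) : Submonoid ℝ) : Set ℝ) ⊆
        allMeasures ∧
      (∃ δ : ℝ, 1 < δ ∧ ∀ x ∈ (Submonoid.closure (T ∪ weaklyDominatedMeasures) : Submonoid ℝ),
        x = 1 ∨ δ ≤ x) ∧
      ∀ B : ℝ, ∃ m : ℕ, ∀ x ∈ derivedSet^[m]
        ((Submonoid.closure (T ∪ weaklyDominatedMeasures) : Submonoid ℝ) : Set ℝ), B ≤ x) ∧
    (∀ (k n : ℕ) (B : Matrix (Fin n) (Fin n) (MvPolynomial (Fin k) ℤ)) (d : Fin n → ℤ),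
      (∀ i j m, 0 ≤ (B i j).coeff m) →
      (∀ i, ∑ j, MvPolynomial.eval (fun _ => (1 : ℤ)) (B i j) ≤ d i) →
      IsWeaklyDominated (Matrix.diagonal (fun i => MvPolynomial.C (d i)) - B) (Equiv.refl _)) ∧
    (∀ (k n : ℕ) (B : Matrix (Fin n) (Fin n) (MvPolynomial (Fin k) ℤ)) (l : ℕ),
      (∀ i j m, 0 ≤ (B i j).coeff m) →
      (∀ z ∈ spectrum ℂ (Matrix.of fun i j : Fin n =>
        ((MvPolynomial.eval (fun _ => (1 : ℤ)) (B i j) : ℤ) : ℂ)), ‖z‖ ≤ l) →
      IsWeaklyDominated (Matrix.diagonal (fun _ => MvPolynomial.C (l : ℤ)) - B)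
        (Equiv.refl _)) := by
  have p1 : ∀ (k n : ℕ) (A : Matrix (Fin n) (Fin n) (MvPolynomial (Fin k) ℤ))
      (σ : Equiv.Perm (Fin n)), IsWeaklyDominated A σ → IsIrreducible A σ → A.det ≠ 0 →
        pairHeight A.det 1 ≤ Real.log (mahler A.det) + Real.log 20 := by
    intro k n A σ h hirr hdet
    obtain ⟨s, hs⟩ := wd_of h
    obtain ⟨p, hw⟩ := hs.irr hirr
    have h1 := H25.DM.irr_height hw hirr (det_ne hdet)
    have h2 : Pool.Agent.H261R2.CM.mM (A.submatrix id σ).det = mahler A.det :=
      H25.DM.mM_congr (permuted A σ)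
    have h3 : Pool.Agent.H261R2.CM.mx (A.submatrix id σ).det 1 = pairHeight A.det 1 := by
      unfold Pool.Agent.H261R2.CM.mx
      simp only [permuted A σ]
      rfl
    rw [h2, h3] at h1
    exact h1
  have hsub : ∀ x ∈ weaklyDominatedMeasures, x ∈ Submonoid.closure H25.DM.T2 := by
    rintro x ⟨k, hk, n, A, σ, h, hdet, rfl⟩
    obtain ⟨s, hs⟩ := wd_of h
    have h1 := H25.DM.mem_closure_T1 hk n (Fin n) (Fintype.card_fin n) _ s hs (det_ne hdet)
    have h2 : Pool.Agent.H261R2.CM.mM (A.submatrix id σ).det = mahler A.det :=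
      H25.DM.mM_congr (permuted A σ)
    rw [h2] at h1
    exact h1
  refine ⟨p1, ?_, ?_, ?_, ?_⟩
  · intro x hx
    refine ⟨?_, ?_⟩
    · obtain ⟨k, hk, n, A, σ, _, hdet, rfl⟩ := hx
      exact Pool.Agent.H261R2.CM.one_le_mM _ hdet
    · refine Submonoid.closure_mono ?_ (hsub x hx)
      rintro y ⟨k, hk, n, A, s, p, ⟨hp, hw⟩, hdet, h1, rfl⟩
      refine ⟨⟨k, hk, n, A, Equiv.refl _, ⟨s, fun ε hε => ⟨p, hp, fun i => ?_⟩⟩, hdet, rfl⟩,
        ⟨k, hk, A.det, 1, hdet, one_ne_zero, isRelPrime_one_right, h1, rfl⟩⟩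
      have h2 := hw i
      have h3 : ∑ j, ((H25.DM.len (A i j) : ℤ) : ℝ) * p j = ∑ j, (length (A i j) : ℝ) * p j := rfl
      rw [h3] at h2
      have h4 : 0 < ε * p i := mul_pos hε (hp i)
      simp only [Equiv.refl_apply]
      linarith
  · intro T hT
    have h0 : Pool.Agent.TH845.KN.BC ((Submonoid.closure (T ∪ H25.DM.T1) : Submonoid ℝ) : Set ℝ) :=
      Pool.Agent.TH845.KN.BC_monoid (Pool.Agent.TH845.KN.BC.union hT H25.DM.BC_T1)
    have hle : (Submonoid.closure (T ∪ weaklyDominatedMeasures) : Submonoid ℝ) ≤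
        Submonoid.closure (T ∪ H25.DM.T1) := by
      rw [Submonoid.closure_le]
      rintro x (hx | hx)
      · exact Submonoid.subset_closure (Or.inl hx)
      · exact Submonoid.closure_mono (H25.DM.T2_subset.trans Set.subset_union_right) (hsub x hx)
    have h1 : Pool.Agent.TH845.KN.BC
        ((Submonoid.closure (T ∪ weaklyDominatedMeasures) : Submonoid ℝ) : Set ℝ) := by
      intro B
      obtain ⟨K, hK⟩ := h0 B
      exact ⟨K, fun x hx => hK ⟨hle hx.1, hx.2⟩⟩
    obtain ⟨h2, h3⟩ := Pool.Agent.W242.IM.closure_of_LL _ h1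
    exact ⟨h1, h2, Pool.Agent.TH845.KN.gap_BC h1, h3⟩
  · intro k n B d hB hd
    refine dominated_sub B d hB fun ε hε => ⟨fun _ => 1, fun _ => one_pos, fun i => ?_⟩
    have h1 : (∑ j, ((MvPolynomial.eval (fun _ => (1 : ℤ)) (B i j) : ℤ) : ℝ)) ≤ d i := by
      exact_mod_cast hd i
    simp only [mul_one]
    linarith
  · intro k n B l hB hz
    refine dominated_sub B (fun _ => (l : ℤ)) hB fun ε hε => ?_
    have hl : (0 : ℝ) ≤ l := Nat.cast_nonneg l
    have hnn : ∀ i j, (0 : ℝ) ≤ ((MvPolynomial.eval (fun _ => (1 : ℤ)) (B i j) : ℤ) : ℝ) := by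
      intro i j
      have : 0 ≤ MvPolynomial.eval (fun _ => (1 : ℤ)) (B i j) := by
        rw [MvPolynomial.eval_eq]
        refine Finset.sum_nonneg fun m _ => mul_nonneg (hB i j m) ?_
        simp
      exact_mod_cast this
    obtain ⟨p, hp, hle⟩ := H25.DM.exists_weights
      (Matrix.of fun i j : Fin n => ((MvPolynomial.eval (fun _ => (1 : ℤ)) (B i j) : ℤ) : ℝ))
      hnn (r := l + ε) (by linarith) (by
        intro z hz1
        have h1 : ((Matrix.of fun i j : Fin n =>
            ((MvPolynomial.eval (fun _ => (1 : ℤ)) (B i j) : ℤ) : ℝ)).map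
            (fun x : ℝ => (x : ℂ))) = Matrix.of fun i j : Fin n =>
            ((MvPolynomial.eval (fun _ => (1 : ℤ)) (B i j) : ℤ) : ℂ) := by
          ext i j
          simp
        rw [h1] at hz1
        linarith [hz z hz1])
    refine ⟨p, hp, fun i => ?_⟩
    have h1 := hle i
    simp only [Matrix.of_apply] at h1
    push_cast
    exact h1

end

end Pool.Agent.Results.MP_6d22ea_nt.WeaklyDominatedMatrices
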